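import Mathlib
import Pool.Agent.Y722.LS.Gen

/-!
# A majorant of the Dirichlet polynomial in a rectangle of the complex plane

The starting file `Pool.Agent.Y722.LS.Sup` has a majorant on a real segment.  Here the polynomial is bounded in
a rectangle of height `T` by its square means over about `T` circles (Cauchy's formula for its square).
-/

set_option autoImplicit false

namespace Pool.Agent.N534.TL

open Finset Pool.Agent.Y722.HS Pool.Agent.Y722.LS MeasureTheory

section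
variable {ι : Type} [Fintype ι] [DecidableEq ι] {A : ℝ} {N B : ∀ p : ℕ, (ι → ZMod p) → ℝ}

/-- The sum at the complex exponent `u`. -/
noncomputable def ZC (N : ∀ p : ℕ, (ι → ZMod p) → ℝ) (y : ℕ) (c : ι → ℤ) (u : ℂ) : ℂ :=
  ∑ p ∈ PR y, (p : ℂ) ^ (-u) * (N p (red p c) : ℂ)

theorem ZC_diff (y : ℕ) (c : ι → ℤ) : Differentiable ℂ (ZC N y c) := by
  unfold ZC
  refine Differentiable.fun_sum fun p hp => ?_
  have hp0 : (p : ℂ) ≠ 0 := by exact_mod_cast (mem_PR.mp hp).2.ne_zero
  exact ((differentiable_neg.const_cpow (Or.inl hp0))).mul_const _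

theorem ZC_sq (y : ℕ) (c : ι → ℤ) (u : ℂ) : ‖ZC N y c u‖ ^ 2 =
    WW N y (fun p => ((p : ℂ) ^ (-u)).re) c ^ 2 + WW N y (fun p => ((p : ℂ) ^ (-u)).im) c ^ 2 := by
  rw [Complex.sq_norm, Complex.normSq_apply]
  have h1 : (ZC N y c u).re = WW N y (fun p => ((p : ℂ) ^ (-u)).re) c := by
    unfold ZC WW
    rw [Complex.re_sum]
    refine Finset.sum_congr rfl fun p _ => ?_
    simp
  have h2 : (ZC N y c u).im = WW N y (fun p => ((p : ℂ) ^ (-u)).im) c := by
    unfold ZC WW
    rw [Complex.im_sum]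
    refine Finset.sum_congr rfl fun p _ => ?_
    simp
  rw [h1, h2]
  ring

theorem wt_norm (y : ℕ) (u : ℂ) (hu : -(1 / 4) ≤ u.re) :
    ∀ p ∈ PR y, ‖(p : ℂ) ^ (-u)‖ ≤ 4 * (p : ℝ) ^ ((1 : ℝ) / 4) := by
  intro p hp
  have hpp := (mem_PR.mp hp).2
  have hp1 : (1 : ℝ) ≤ p := by exact_mod_cast hpp.one_lt.le
  have hp0 : (0 : ℝ) < p := by linarith
  have : ((p : ℝ) : ℂ) = (p : ℂ) := by push_cast; rfl
  rw [← this, Complex.norm_cpow_eq_rpow_re_of_pos hp0]
  have h1 : (p : ℝ) ^ (-u).re ≤ (p : ℝ) ^ ((1 : ℝ) / 4) :=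
    Real.rpow_le_rpow_of_exponent_le hp1 (by simp; linarith)
  have h2 : (0 : ℝ) < (p : ℝ) ^ ((1 : ℝ) / 4) := by positivity
  linarith

theorem EB_ZC (h : Fam A N B) (H y : ℕ) (hy : y ^ 4 ≤ H) (u : ℂ) (hu : -(1 / 4) ≤ u.re) :
    EB H (fun c : ι → ℤ => ‖ZC N y c u‖ ^ 2) ≤ 2 * K1 ι A := by
  simp only [ZC_sq]
  rw [EB_add]
  have h1 := h.EB_WW_sq H y hy (fun p => ((p : ℂ) ^ (-u)).re)
    fun p hp => (Complex.abs_re_le_norm _).trans (wt_norm y u hu p hp)
  have h2 := h.EB_WW_sq H y hy (fun p => ((p : ℂ) ^ (-u)).im)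
    fun p hp => (Complex.abs_im_le_norm _).trans (wt_norm y u hu p hp)
  linarith

/-- The bound by the square mean over a circle. -/
theorem circ {f : ℂ → ℂ} (hf : Differentiable ℂ f) (a w : ℂ) (hw : ‖w - a‖ ≤ 13 / 25) :
    ‖f w‖ ^ 2 ≤ ∫ θ in (0 : ℝ)..2 * Real.pi, ‖f (circleMap a (7 / 10) θ)‖ ^ 2 := by
  have hw' : w ∈ Metric.ball a (7 / 10) := by
    rw [Metric.mem_ball, dist_eq_norm]
    linarith
  have hf2 : Differentiable ℂ (fun z => f z ^ 2) := hf.pow 2
  have h1 := Complex.circleIntegral_sub_inv_smul_of_differentiable_on_off_countable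
    (Set.countable_empty) hw' hf2.continuous.continuousOn (fun x _ => hf2 x)
  have h2 : ‖∮ z in C(a, 7 / 10), (z - w)⁻¹ • f z ^ 2‖ ≤
      ∫ θ in (0 : ℝ)..2 * Real.pi, 4 * ‖f (circleMap a (7 / 10) θ)‖ ^ 2 := by
    unfold circleIntegral
    refine (intervalIntegral.norm_integral_le_integral_norm (by positivity)).trans ?_
    have hne : ∀ θ : ℝ, (9 : ℝ) / 50 ≤ ‖circleMap a (7 / 10) θ - w‖ := by
      intro θ
      have h3 : ‖circleMap a (7 / 10) θ - a‖ = 7 / 10 := by
        simp [circleMap]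
      have h4 : circleMap a (7 / 10) θ - w = (circleMap a (7 / 10) θ - a) - (w - a) := by ring
      rw [h4]
      have := norm_sub_norm_le (circleMap a (7 / 10) θ - a) (w - a)
      linarith
    have hcont : Continuous fun θ : ℝ => f (circleMap a (7 / 10) θ) :=
      hf.continuous.comp (continuous_circleMap _ _)
    apply intervalIntegral.integral_mono_on (by positivity)
    · apply Continuous.intervalIntegrable
      have c1 : Continuous fun θ : ℝ => (circleMap a (7 / 10) θ - w)⁻¹ := by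
        refine Continuous.inv₀ ((continuous_circleMap _ _).sub continuous_const) fun θ h0 => ?_
        have := hne θ
        rw [h0, norm_zero] at this
        linarith
      have c2 : Continuous fun θ : ℝ => deriv (circleMap a (7 / 10)) θ := by
        simp only [deriv_circleMap]
        exact (continuous_circleMap _ _).mul continuous_const
      exact (c2.smul (c1.smul (hcont.pow 2))).norm
    · exact (continuous_const.mul (hcont.norm.pow 2)).intervalIntegrable _ _
    · intro θ _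
      rw [deriv_circleMap]
      simp only [smul_eq_mul, norm_mul, norm_inv, norm_pow, Complex.norm_I, mul_one]
      have h5 : ‖circleMap 0 (7 / 10) θ‖ = 7 / 10 := by
        simp [circleMap]
      rw [h5]
      have h6 : ‖circleMap a (7 / 10) θ - w‖⁻¹ ≤ 50 / 9 := by
        rw [inv_le_comm₀ (by linarith [hne θ]) (by norm_num)]
        have := hne θ
        norm_num
        linarith
      have h7 : 0 ≤ ‖f (circleMap a (7 / 10) θ)‖ ^ 2 := by positivity
      calc (7 : ℝ) / 10 * (‖circleMap a (7 / 10) θ - w‖⁻¹ * ‖f (circleMap a (7 / 10) θ)‖ ^ 2)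
          ≤ 7 / 10 * (50 / 9 * ‖f (circleMap a (7 / 10) θ)‖ ^ 2) := by gcongr
        _ ≤ _ := by nlinarith
  rw [h1, smul_eq_mul, norm_mul, norm_pow] at h2
  have h3 : ‖(2 * Real.pi * Complex.I : ℂ)‖ = 2 * Real.pi := by
    simp [abs_of_pos Real.pi_pos]
  rw [h3, intervalIntegral.integral_const_mul] at h2
  have hI : 0 ≤ ∫ θ in (0 : ℝ)..2 * Real.pi, ‖f (circleMap a (7 / 10) θ)‖ ^ 2 :=
    intervalIntegral.integral_nonneg (by positivity) fun θ _ => by positivity
  have hpi := Real.pi_gt_three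
  have h4 : 0 ≤ ‖f w‖ ^ 2 := by positivity
  nlinarith

/-- The centres of the circles. -/
noncomputable def ctr (k : ℤ) : ℂ := 1 / 2 + (k / 4 : ℝ) * Complex.I

/-- The majorant. -/
noncomputable def G2 (N : ∀ p : ℕ, (ι → ZMod p) → ℝ) (y K : ℕ) (c : ι → ℤ) : ℝ :=
  ∑ k ∈ Finset.Icc (-(K : ℤ)) K, ∫ θ in (0 : ℝ)..2 * Real.pi,
    ‖ZC N y c (circleMap (ctr k) (7 / 10) θ)‖ ^ 2

theorem G2_nonneg (y K : ℕ) (c : ι → ℤ) : 0 ≤ G2 N y K c :=
  Finset.sum_nonneg fun k _ =>
    intervalIntegral.integral_nonneg (by positivity) fun θ _ => by positivity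

theorem ZC_le (y K : ℕ) (c : ι → ℤ) (ε τ : ℝ) (h0 : 0 ≤ ε) (h1 : ε ≤ 1) (hτ : 4 * |τ| + 1 ≤ K) :
    ‖ZC N y c (ε + τ * Complex.I)‖ ^ 2 ≤ G2 N y K c := by
  set k : ℤ := round (4 * τ) with hk
  have h2 : |4 * τ - k| ≤ 1 / 2 := abs_sub_round (4 * τ)
  have h3 : k ∈ Finset.Icc (-(K : ℤ)) K := by
    rw [Finset.mem_Icc]
    have h4 := abs_le.mp h2
    have h5 := neg_abs_le τ
    have h6 := le_abs_self τ
    constructor
    · have : (-(K : ℝ)) ≤ (k : ℝ) := by linarith
      exact_mod_cast this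
    · have : (k : ℝ) ≤ (K : ℝ) := by linarith
      exact_mod_cast this
  have h4 : ‖((ε : ℂ) + τ * Complex.I) - ctr k‖ ≤ 13 / 25 := by
    have e : ((ε : ℂ) + τ * Complex.I) - ctr k = ((ε - 1 / 2 : ℝ) : ℂ) + ((τ - k / 4 : ℝ) : ℂ) * Complex.I := by
      unfold ctr
      push_cast
      ring
    rw [e]
    have h5 : |τ - k / 4| ≤ 1 / 8 := by
      have : τ - k / 4 = (4 * τ - k) / 4 := by ring
      rw [this, abs_div]
      norm_num
      linarith
    have h6 : |ε - 1 / 2| ≤ 1 / 2 := by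
      rw [abs_le]
      constructor <;> linarith
    have h7 : ‖((ε - 1 / 2 : ℝ) : ℂ) + ((τ - k / 4 : ℝ) : ℂ) * Complex.I‖ ^ 2 ≤ (13 / 25) ^ 2 := by
      rw [Complex.sq_norm, Complex.normSq_add_mul_I]
      have a1 : (ε - 1 / 2) ^ 2 ≤ (1 / 2) ^ 2 := sq_le_sq' (by linarith) (by linarith)
      have a2 : (τ - k / 4) ^ 2 ≤ (1 / 8) ^ 2 := by
        have := abs_le.mp h5
        exact sq_le_sq' this.1 this.2
      norm_num at a1 a2 ⊢
      linarith
    exact le_of_sq_le_sq h7 (by norm_num)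
  refine (circ (ZC_diff y c) (ctr k) _ h4).trans ?_
  exact Finset.single_le_sum (f := fun k : ℤ => ∫ θ in (0 : ℝ)..2 * Real.pi,
    ‖ZC N y c (circleMap (ctr k) (7 / 10) θ)‖ ^ 2)
    (fun k _ => intervalIntegral.integral_nonneg (by positivity) fun θ _ => by positivity) h3

theorem EB_G2 (h : Fam A N B) (H y K : ℕ) (hy : y ^ 4 ≤ H) :
    EB H (fun c : ι → ℤ => G2 N y K c) ≤ (2 * K + 1) * (4 * Real.pi * K1 ι A) := by
  unfold G2
  rw [EB_sum]
  have hcont : ∀ (k : ℤ) (c : ι → ℤ), Continuous fun θ : ℝ => ‖ZC N y c (circleMap (ctr k) (7 / 10) θ)‖ ^ 2 :=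
    fun k c => ((ZC_diff y c).continuous.comp (continuous_circleMap _ _)).norm.pow 2
  have h1 : ∀ k ∈ Finset.Icc (-(K : ℤ)) K, EB H (fun c : ι → ℤ => ∫ θ in (0 : ℝ)..2 * Real.pi,
      ‖ZC N y c (circleMap (ctr k) (7 / 10) θ)‖ ^ 2) ≤ 4 * Real.pi * K1 ι A := by
    intro k _
    have h3 : EB H (fun c : ι → ℤ => ∫ θ in (0 : ℝ)..2 * Real.pi,
        ‖ZC N y c (circleMap (ctr k) (7 / 10) θ)‖ ^ 2) =
        ∫ θ in (0 : ℝ)..2 * Real.pi, EB H (fun c : ι → ℤ =>
          ‖ZC N y c (circleMap (ctr k) (7 / 10) θ)‖ ^ 2) := by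
      unfold EB
      rw [intervalIntegral.integral_div, intervalIntegral.integral_finsetSum]
      intro c _
      exact (hcont k c).intervalIntegrable _ _
    have hcont2 : Continuous fun θ : ℝ => EB H (fun c : ι → ℤ =>
        ‖ZC N y c (circleMap (ctr k) (7 / 10) θ)‖ ^ 2) := by
      unfold EB
      exact (continuous_finsetSum _ fun c _ => hcont k c).div_const _
    rw [h3]
    calc _ ≤ ∫ θ in (0 : ℝ)..2 * Real.pi, 2 * K1 ι A := by
          apply intervalIntegral.integral_mono_on (by positivity) (hcont2.intervalIntegrable _ _)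
            (by simp)
          intro θ _
          apply EB_ZC h H y hy
          have h5 : ‖circleMap (ctr k) (7 / 10) θ - ctr k‖ = 7 / 10 := by simp [circleMap]
          have h6 := (Complex.abs_re_le_norm (circleMap (ctr k) (7 / 10) θ - ctr k)).trans h5.le
          have h7 : (ctr k).re = 1 / 2 := by simp [ctr]
          rw [Complex.sub_re, h7] at h6
          have := (abs_le.mp h6).1
          linarith
      _ = _ := by
          rw [intervalIntegral.integral_const]
          simp only [sub_zero, smul_eq_mul]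
          ring
  refine (Finset.sum_le_sum h1).trans ?_
  rw [Finset.sum_const, nsmul_eq_mul, Int.card_Icc]
  have h2 : ((K : ℤ) + 1 - -(K : ℤ)).toNat = 2 * K + 1 := by omega
  rw [h2]
  push_cast
  exact le_rfl

end

end Pool.Agent.N534.TL
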