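import Mathlib
import Pool.Agent.N534.TL.Sup2

/-!
# The L-functions of the members of a linear system near the whole line, in mean square
-/

set_option autoImplicit false

namespace Pool.Agent.N534.TL

open Finset Pool.Agent.Y722.HS Pool.Agent.Y722.LS

/-- the eigenvalues, twisted by `p ^ (- i τ)` -/
noncomputable def twist {b : ℕ} (α : ℕ → Fin b → ℂ) (τ : ℝ) (p : ℕ) (j : Fin b) : ℂ :=
  α p j * (p : ℂ) ^ (-((τ : ℂ) * Complex.I))

theorem norm_pi (p : ℕ) (hp : p.Prime) (τ : ℝ) : ‖(p : ℂ) ^ (-((τ : ℂ) * Complex.I))‖ = 1 := by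
  have hp0 : (0 : ℝ) < p := by exact_mod_cast hp.pos
  have : ((p : ℝ) : ℂ) = (p : ℂ) := by push_cast; rfl
  rw [← this, Complex.norm_cpow_eq_rpow_re_of_pos hp0]
  simp

theorem twist_norm {b : ℕ} (α : ℕ → Fin b → ℂ) (τ : ℝ) (p : ℕ) (hp : p.Prime) (j : Fin b) :
    ‖twist α τ p j‖ = ‖α p j‖ := by
  rw [twist, norm_mul, norm_pi p hp, mul_one]

theorem LP_twist {b : ℕ} (α : ℕ → Fin b → ℂ) (s : ℂ) (τ : ℝ) :
    LP (twist α τ) s = LP α (s + τ * Complex.I) := by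
  unfold LP
  refine tprod_congr fun p => Finset.prod_congr rfl fun j _ => ?_
  have hp0 : ((p : ℕ) : ℂ) ≠ 0 := by exact_mod_cast p.2.ne_zero
  rw [twist, mul_assoc, ← Complex.cpow_add _ _ hp0]
  congr 4
  ring

/-- the prime number sum on the line -/
theorem prime_line (ε τ : ℝ) (h0 : 0 < ε) (h1 : ε ≤ 1) (y : ℕ) (hy : 1 ≤ y)
    (h2 : 1 ≤ 4 * (ε * Real.log (y + 1))) :
    |∑ p ∈ PR y, (p : ℝ) ^ (-1 - ε) * ((p : ℂ) ^ (-((τ : ℂ) * Complex.I))).re -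
      Real.log ‖riemannZeta (1 + ε + τ * Complex.I)‖| ≤ SS + 128 := by
  have h3 := log_LP (n := 1) (b := 1) (α := twist (fun _ _ => 1) τ) h0 h1
    (fun p hp j => by rw [twist_norm _ _ p hp]; simp) y hy
  have h4 : LP (b := 1) (twist (fun _ _ => 1) τ) (ss 1 ε) = riemannZeta (1 + ε + τ * Complex.I) := by
    have h5 : ss 1 ε = 1 + (ε : ℂ) := by
      simp only [ss]
      push_cast
      ring
    have h6 := riemannZeta_eulerProduct_tprod (s := 1 + (ε : ℂ) + τ * Complex.I) (by simp [h0])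
    rw [LP_twist, ← h6, h5, LP]
    simp
  have h7 : ∑ p ∈ PR y, ((∑ j : Fin 1, twist (fun _ _ => (1 : ℂ)) τ p j) * (p : ℂ) ^ (-ss 1 ε)).re =
      ∑ p ∈ PR y, (p : ℝ) ^ (-1 - ε) * ((p : ℂ) ^ (-((τ : ℂ) * Complex.I))).re := by
    refine Finset.sum_congr rfl fun p hp => ?_
    have hp0 : (0 : ℝ) < p := by exact_mod_cast (mem_PR.mp hp).2.pos
    have h8 : (p : ℂ) ^ (-ss 1 ε) = (((p : ℝ) ^ (-1 - ε) : ℝ) : ℂ) := by
      rw [Complex.ofReal_cpow hp0.le]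
      congr 1
      simp only [ss]
      push_cast
      ring
    rw [h8]
    simp only [Finset.univ_unique, twist, one_mul, Finset.sum_const, Finset.card_singleton, one_smul]
    rw [Complex.re_mul_ofReal]
    ring
  rw [h4, h7] at h3
  have h10 : 16 / (ε * Real.log (y + 1)) ≤ 64 := by
    rw [div_le_iff₀ (by linarith)]
    linarith
  rw [abs_sub_comm]
  refine h3.trans ?_
  push_cast
  linarith

variable {m : ℕ} {ι : Type} [Fintype ι] [DecidableEq ι]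

section
variable {f : ι → MvPolynomial (Fin (2 * m + 2)) ℤ} {p0 : ℕ} {CZ : ℝ}

theorem term_near2 (P : MvPolynomial ι ℤ)
    (hP : ∀ (K : Type) [Field K] (c : ι → K), MvPolynomial.eval₂ (Int.castRingHom K) c P ≠ 0 →
      IsSmooth (lform (n := 2 * m + 1) f c))
    (hZ : ∀ p : ℕ, p.Prime → zc f p ≤ CZ * (p : ℝ) ^ m) {b : ℕ} {c : ι → ℤ} {α : ℕ → Fin b → ℂ}
    (h : IsFrobenius f b c α) (p : ℕ) [Fact p.Prime] (ε τ : ℝ) (hε : 0 ≤ ε) :
    |((∑ j, twist α τ p j) * (p : ℂ) ^ (-ss (2 * m + 1) ε)).re -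
      ((p : ℝ) ^ (-ε) * ((p : ℂ) ^ (-((τ : ℂ) * Complex.I))).re * NN f p0 p (red p c) +
        rho f p * ((p : ℝ) ^ (-ε) * ((p : ℂ) ^ (-((τ : ℂ) * Complex.I))).re))| ≤
      bb (NN f p0) (BB P p0) (b + CZ + 1) p (red p c) := by
  classical
  have hp := (Fact.out : p.Prime)
  have hp0 : (0 : ℝ) < p := by exact_mod_cast hp.pos
  have hp1 : (1 : ℝ) ≤ p := by exact_mod_cast hp.one_lt.le
  have hpε : (p : ℝ) ^ (-ε) ≤ 1 := Real.rpow_le_one_of_one_le_of_nonpos hp1 (by linarith)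
  have hpε0 : 0 < (p : ℝ) ^ (-ε) := by positivity
  set r : ℂ := (p : ℂ) ^ (-((τ : ℂ) * Complex.I)) with hr
  have hr1 : ‖r‖ = 1 := norm_pi p hp τ
  have hre : |r.re| ≤ 1 := (Complex.abs_re_le_norm r).trans hr1.le
  have hsumtw : (∑ j, twist α τ p j) = (∑ j, α p j) * r := by
    rw [Finset.sum_mul]
    rfl
  have hss : (((2 * m + 1 : ℕ) : ℝ) + 1) / 2 = ((m + 1 : ℕ) : ℝ) := by push_cast; ring
  have hcp : (p : ℂ) ^ (-ss (2 * m + 1) ε) = (((p : ℝ) ^ (-ε) / (p : ℝ) ^ (m + 1) : ℝ) : ℂ) := by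
    have h1 : (p : ℝ) ^ (-ε) / (p : ℝ) ^ (m + 1) = (p : ℝ) ^ (-(((m + 1 : ℕ) : ℝ) + ε)) := by
      rw [neg_add, Real.rpow_add hp0, Real.rpow_neg hp0.le ((m + 1 : ℕ) : ℝ), Real.rpow_natCast]
      ring
    rw [h1, Complex.ofReal_cpow hp0.le]
    congr 1
    unfold ss
    rw [hss]
    push_cast
    ring
  obtain ⟨hρ0, hρ1⟩ := rho_bd hZ p hp
  by_cases hb : p < p0 ∨ MvPolynomial.eval₂ (Int.castRingHom (ZMod p)) (red p c) P = 0
  · have h1 : bb (NN f p0) (BB P p0) (b + CZ + 1) p (red p c) =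
        |NN f p0 p (red p c)| + (b + CZ + 1) / p := by
      unfold bb BB; rw [if_pos hb, one_mul]
    rw [h1, hsumtw]
    have h2 : |((∑ j, α p j) * r * (p : ℂ) ^ (-ss (2 * m + 1) ε)).re| ≤ b / p := by
      refine (Complex.abs_re_le_norm _).trans ?_
      rw [norm_mul, norm_mul, hr1, mul_one, hcp, Complex.norm_real, Real.norm_of_nonneg (by positivity)]
      have h3 : ‖∑ j, α p j‖ ≤ b * (p : ℝ) ^ m := by
        refine (norm_sum_le _ _).trans ?_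
        refine (Finset.sum_le_sum fun j _ => h.bound p hp j).trans ?_
        rw [Finset.sum_const, nsmul_eq_mul, Finset.card_univ, Fintype.card_fin]
      calc _ ≤ b * (p : ℝ) ^ m * (1 / (p : ℝ) ^ (m + 1)) := by gcongr
        _ = _ := by rw [pow_succ]; field_simp
    have h3 : |(p : ℝ) ^ (-ε) * r.re * NN f p0 p (red p c)| ≤ |NN f p0 p (red p c)| := by
      rw [abs_mul, abs_mul, abs_of_pos hpε0]
      calc _ ≤ 1 * 1 * |NN f p0 p (red p c)| := by gcongr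
        _ = _ := by ring
    have h4 : |rho f p * ((p : ℝ) ^ (-ε) * r.re)| ≤ (CZ + 1) / p := by
      rw [abs_mul, abs_mul, abs_of_nonneg hρ0, abs_of_pos hpε0]
      calc _ ≤ rho f p * (1 * 1) := by gcongr
        _ ≤ _ := by rw [mul_one, mul_one]; exact hρ1
    have h5 := abs_sub (((∑ j, α p j) * r * (p : ℂ) ^ (-ss (2 * m + 1) ε)).re)
      ((p : ℝ) ^ (-ε) * r.re * NN f p0 p (red p c) + rho f p * ((p : ℝ) ^ (-ε) * r.re))
    have h6 := abs_add_le ((p : ℝ) ^ (-ε) * r.re * NN f p0 p (red p c)) (rho f p * ((p : ℝ) ^ (-ε) * r.re))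
    have h7 : ((b : ℝ) + CZ + 1) / p = b / p + (CZ + 1) / p := by ring
    rw [h7]
    linarith
  · have h1 : bb (NN f p0) (BB P p0) (b + CZ + 1) p (red p c) = 0 := by
      unfold bb BB; rw [if_neg hb, zero_mul]
    push Not at hb
    obtain ⟨hb1, hb2⟩ := hb
    have hsm : IsSmooth (MvPolynomial.map (algebraMap (ZMod p) (AlgebraicClosure (ZMod p)))
        (lform (n := 2 * m + 1) f (red p c))) := by
      rw [map_lform]
      apply hP
      have h2 : MvPolynomial.eval₂ (Int.castRingHom (AlgebraicClosure (ZMod p)))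
          (fun i => algebraMap (ZMod p) (AlgebraicClosure (ZMod p)) (red p c i)) P =
          algebraMap (ZMod p) (AlgebraicClosure (ZMod p))
            (MvPolynomial.eval₂ (Int.castRingHom (ZMod p)) (red p c) P) := by
        rw [MvPolynomial.eval₂_comp_left, RingHom.ext_int
          ((algebraMap (ZMod p) (AlgebraicClosure (ZMod p))).comp (Int.castRingHom (ZMod p)))
          (Int.castRingHom (AlgebraicClosure (ZMod p)))]
        rfl
      rw [h2]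
      intro h3
      exact hb2 ((map_eq_zero _).mp h3)
    have h2 := h.count p hsm
    have hp1' : (p : ℝ) - 1 ≠ 0 := by
      have : (1 : ℝ) < p := by exact_mod_cast hp.one_lt
      linarith
    have hp1c : ((p : ℂ) - 1) ≠ 0 := by exact_mod_cast hp1'
    have h3 : ∑ j, α p j =
        ((la (n := 2 * m + 1) f p (red p c) + zc f p + (p : ℝ) ^ m : ℝ) : ℂ) := by
      have h4 : la (n := 2 * m + 1) f p (red p c) + zc f p + (p : ℝ) ^ m =
          ((lcone (n := 2 * m + 1) f (red p c) : ℝ) - ((p : ℝ) ^ (2 * m + 1) - 1)) / ((p : ℝ) - 1) +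
            (p : ℝ) ^ m := by
        unfold la zc dcone
        field_simp
        ring
      rw [h4]
      push_cast
      rw [h2]
      field_simp
      ring
    rw [h1, hsumtw, h3, hcp, mul_assoc, mul_comm r, ← mul_assoc, ← Complex.ofReal_mul,
      Complex.re_ofReal_mul]
    apply le_of_eq
    rw [abs_eq_zero, sub_eq_zero, NN, if_neg (by omega), rho]
    field_simp
    ring

/-- The sum over the primes up to `y`. -/
theorem sum_near2 (P : MvPolynomial ι ℤ)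
    (hP : ∀ (K : Type) [Field K] (c : ι → K), MvPolynomial.eval₂ (Int.castRingHom K) c P ≠ 0 →
      IsSmooth (lform (n := 2 * m + 1) f c))
    (hZ : ∀ p : ℕ, p.Prime → zc f p ≤ CZ * (p : ℝ) ^ m) {b : ℕ} {c : ι → ℤ} {α : ℕ → Fin b → ℂ}
    (h : IsFrobenius f b c α) (y : ℕ) (ε τ : ℝ) (hε : 0 ≤ ε) :
    |∑ p ∈ PR y, ((∑ j, twist α τ p j) * (p : ℂ) ^ (-ss (2 * m + 1) ε)).re -
      ((ZC (NN f p0) y c (ε + τ * Complex.I)).re +
        ∑ p ∈ PR y, rho f p * ((p : ℝ) ^ (-ε) * ((p : ℂ) ^ (-((τ : ℂ) * Complex.I))).re))| ≤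
      ∑ p ∈ PR y, bb (NN f p0) (BB P p0) (b + CZ + 1) p (red p c) := by
  have e1 : (ZC (NN f p0) y c (ε + τ * Complex.I)).re =
      ∑ p ∈ PR y, (p : ℝ) ^ (-ε) * ((p : ℂ) ^ (-((τ : ℂ) * Complex.I))).re * NN f p0 p (red p c) := by
    unfold ZC
    rw [Complex.re_sum]
    refine Finset.sum_congr rfl fun p hp => ?_
    have hpp := (mem_PR.mp hp).2
    have hp0 : (0 : ℝ) < p := by exact_mod_cast hpp.pos
    have hpc : (p : ℂ) ≠ 0 := by exact_mod_cast hpp.ne_zero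
    have e2 : (p : ℂ) ^ (-((ε : ℂ) + τ * Complex.I)) =
        (((p : ℝ) ^ (-ε) : ℝ) : ℂ) * (p : ℂ) ^ (-((τ : ℂ) * Complex.I)) := by
      rw [Complex.ofReal_cpow hp0.le, neg_add, Complex.cpow_add _ _ hpc]
      push_cast
      ring
    rw [e2, Complex.re_mul_ofReal, Complex.re_ofReal_mul]
  rw [e1, ← Finset.sum_add_distrib, ← Finset.sum_sub_distrib]
  refine (Finset.abs_sum_le_sum_abs _ _).trans (Finset.sum_le_sum fun p hp => ?_)
  have := Fact.mk (mem_PR.mp hp).2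
  exact term_near2 P hP hZ h p ε τ hε

/-- The main term. -/
theorem main_term (hC1 : 0 ≤ CZ) (e : ℝ)
    (hZ : ∀ p : ℕ, p.Prime → |zc f p - e * (p : ℝ) ^ m| ≤ CZ * (p : ℝ) ^ ((m : ℝ) - 1 / 2))
    (ε τ : ℝ) (h0 : 0 < ε) (h1 : ε ≤ 1) (y : ℕ) (hy : 1 ≤ y)
    (h2 : 1 ≤ 4 * (ε * Real.log (y + 1))) :
    |∑ p ∈ PR y, rho f p * ((p : ℝ) ^ (-ε) * ((p : ℂ) ^ (-((τ : ℂ) * Complex.I))).re) -
      (1 + e) * Real.log ‖riemannZeta (1 + ε + τ * Complex.I)‖| ≤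
        CZ * SS + |1 + e| * (SS + 128) := by
  have h3 : |∑ p ∈ PR y, rho f p * ((p : ℝ) ^ (-ε) * ((p : ℂ) ^ (-((τ : ℂ) * Complex.I))).re) -
      (1 + e) * ∑ p ∈ PR y, (p : ℝ) ^ (-1 - ε) * ((p : ℂ) ^ (-((τ : ℂ) * Complex.I))).re| ≤ CZ * SS := by
    rw [Finset.mul_sum, ← Finset.sum_sub_distrib]
    refine (Finset.abs_sum_le_sum_abs _ _).trans ?_
    have h10 : ∀ p ∈ PR y, |rho f p * ((p : ℝ) ^ (-ε) * ((p : ℂ) ^ (-((τ : ℂ) * Complex.I))).re) -
        (1 + e) * ((p : ℝ) ^ (-1 - ε) * ((p : ℂ) ^ (-((τ : ℂ) * Complex.I))).re)| ≤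
          CZ * (1 / (p : ℝ) ^ ((3 : ℝ) / 2)) := by
      intro p hp
      have hpp := (mem_PR.mp hp).2
      have hp0 : (0 : ℝ) < p := by exact_mod_cast hpp.pos
      have hp1 : (1 : ℝ) ≤ p := by exact_mod_cast hpp.one_lt.le
      have hpε : (p : ℝ) ^ (-ε) ≤ 1 := Real.rpow_le_one_of_one_le_of_nonpos hp1 (by linarith)
      have hre : |((p : ℂ) ^ (-((τ : ℂ) * Complex.I))).re| ≤ 1 :=
        (Complex.abs_re_le_norm _).trans (norm_pi p hpp τ).le
      set r := ((p : ℂ) ^ (-((τ : ℂ) * Complex.I))).re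
      have e1 : rho f p * ((p : ℝ) ^ (-ε) * r) - (1 + e) * ((p : ℝ) ^ (-1 - ε) * r) =
          (zc f p - e * (p : ℝ) ^ m) * ((p : ℝ) ^ (-ε) / (p : ℝ) ^ (m + 1)) * r := by
        rw [show (-1 - ε : ℝ) = -1 + -ε by ring, Real.rpow_add hp0, Real.rpow_neg_one, pow_succ, rho,
          pow_succ]
        field_simp
        ring
      rw [e1, abs_mul, abs_mul,
        abs_of_pos (by positivity : (0 : ℝ) < (p : ℝ) ^ (-ε) / (p : ℝ) ^ (m + 1))]
      calc _ ≤ CZ * (p : ℝ) ^ ((m : ℝ) - 1 / 2) * (1 / (p : ℝ) ^ (m + 1)) * 1 := by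
            gcongr
            exact hZ p hpp
        _ = _ := by
            have e2 : (p : ℝ) ^ (m + 1) = (p : ℝ) ^ ((m : ℝ) - 1 / 2) * (p : ℝ) ^ ((3 : ℝ) / 2) := by
              rw [← Real.rpow_add hp0, ← Real.rpow_natCast]
              congr 1
              push_cast
              ring
            rw [e2]
            field_simp
    refine (Finset.sum_le_sum h10).trans ?_
    rw [← Finset.mul_sum]
    exact mul_le_mul_of_nonneg_left (sum_le_SS _) hC1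
  have h4 := prime_line ε τ h0 h1 y hy h2
  set S1 := ∑ p ∈ PR y, rho f p * ((p : ℝ) ^ (-ε) * ((p : ℂ) ^ (-((τ : ℂ) * Complex.I))).re)
  set S2 := ∑ p ∈ PR y, (p : ℝ) ^ (-1 - ε) * ((p : ℂ) ^ (-((τ : ℂ) * Complex.I))).re
  set l := Real.log ‖riemannZeta (1 + ε + τ * Complex.I)‖
  have e0 : S1 - (1 + e) * l = (S1 - (1 + e) * S2) + (1 + e) * (S2 - l) := by ring
  rw [e0]
  refine (abs_add_le _ _).trans (add_le_add h3 ?_)
  rw [abs_mul]
  gcongr

/-- The L-function of one member. -/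
theorem one_near2 (P : MvPolynomial ι ℤ)
    (hP : ∀ (K : Type) [Field K] (c : ι → K), MvPolynomial.eval₂ (Int.castRingHom K) c P ≠ 0 →
      IsSmooth (lform (n := 2 * m + 1) f c)) (hC1 : 0 ≤ CZ) (e : ℝ)
    (hZ : ∀ p : ℕ, p.Prime → |zc f p - e * (p : ℝ) ^ m| ≤ CZ * (p : ℝ) ^ ((m : ℝ) - 1 / 2))
    (hZ' : ∀ p : ℕ, p.Prime → zc f p ≤ (|e| + CZ) * (p : ℝ) ^ m)
    (b y : ℕ) (hy : 1 ≤ y) (c : ι → ℤ) (α : ℕ → Fin b → ℂ) (h : IsFrobenius f b c α) (ε τ : ℝ)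
    (hε : 0 < ε) (hε1 : ε ≤ 1) (hyε : 1 ≤ 4 * (ε * Real.log (y + 1))) :
    |Real.log ‖LP α (ss (2 * m + 1) ε + τ * Complex.I)‖ -
      (1 + e) * Real.log ‖riemannZeta (1 + ε + τ * Complex.I)‖| ≤
      ‖ZC (NN f p0) y c (ε + τ * Complex.I)‖ +
        ∑ p ∈ PR y, bb (NN f p0) (BB P p0) (b + (|e| + CZ) + 1) p (red p c) +
        (b * SS + 128 * b + CZ * SS + |1 + e| * (SS + 128)) := by
  have hbound : ∀ p : ℕ, p.Prime → ∀ j,
      ‖twist α τ p j‖ ≤ (p : ℝ) ^ ((((2 * m + 1 : ℕ) : ℝ) - 1) / 2) := by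
    intro p hp j
    have e : (((2 * m + 1 : ℕ) : ℝ) - 1) / 2 = (m : ℝ) := by push_cast; ring
    rw [e, Real.rpow_natCast, twist_norm α τ p hp]
    exact h.bound p hp j
  have h1 := log_LP (n := 2 * m + 1) hε hε1 hbound y hy
  rw [LP_twist] at h1
  have h2 := sum_near2 (p0 := p0) P hP hZ' h y ε τ hε.le
  have h16 : 16 / (ε * Real.log (y + 1)) ≤ 64 := by
    rw [div_le_iff₀ (by linarith)]
    linarith
  have h3 : 2 * (b : ℝ) * (16 / (ε * Real.log (y + 1))) ≤ 128 * b := by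
    calc _ ≤ 2 * (b : ℝ) * 64 := by gcongr
      _ = _ := by ring
  have h4 := main_term hC1 e hZ ε τ hε hε1 y hy hyε
  have h5 := Complex.abs_re_le_norm (ZC (NN f p0) y c (ε + τ * Complex.I))
  set L := Real.log ‖LP α (ss (2 * m + 1) ε + τ * Complex.I)‖
  set S1 := ∑ p ∈ PR y, ((∑ j, twist α τ p j) * (p : ℂ) ^ (-ss (2 * m + 1) ε)).re
  set Zz := (ZC (NN f p0) y c (ε + τ * Complex.I)).re
  set S2 := ∑ p ∈ PR y, rho f p * ((p : ℝ) ^ (-ε) * ((p : ℂ) ^ (-((τ : ℂ) * Complex.I))).re)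
  set S4 := ∑ p ∈ PR y, bb (NN f p0) (BB P p0) (b + (|e| + CZ) + 1) p (red p c)
  set l := Real.log ‖riemannZeta (1 + ε + τ * Complex.I)‖
  have e0 : L - (1 + e) * l = (L - S1) + (S1 - (Zz + S2)) + Zz + (S2 - (1 + e) * l) := by ring
  rw [e0]
  have i1 := abs_add_le ((L - S1) + (S1 - (Zz + S2)) + Zz) (S2 - (1 + e) * l)
  have i2 := abs_add_le ((L - S1) + (S1 - (Zz + S2))) Zz
  have i3 := abs_add_le (L - S1) (S1 - (Zz + S2))
  linarith

/-- **The majorant**: for every height `H` and every `T` there is a function on the box, with a mean of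
at most `C (1 + T)`, which is at least the square of the error at all the points of the region. -/
theorem majorant {d : ℕ} (hd : 1 ≤ d) (f : ι → MvPolynomial (Fin (2 * m + 2)) ℤ)
    (hf : ∀ i, (f i).IsHomogeneous d) (c0 : ι → ℤ)
    (hs : IsSmooth (lform (n := 2 * m + 1) f (fun i => (c0 i : ℂ)))) (p0 : ℕ)
    (hsep : ∀ p : ℕ, p.Prime → p0 ≤ p → Separates (n := 2 * m + 1) f p) (e C0 : ℝ)
    (hZ : ∀ p : ℕ, p.Prime → p0 ≤ p → |zc f p - e * (p : ℝ) ^ m| ≤ C0 * (p : ℝ) ^ ((m : ℝ) - 1 / 2))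
    (b : ℕ) : ∃ C : ℝ, 0 < C ∧ ∀ H : ℕ, 2 ≤ H → ∀ T : ℝ, 0 ≤ T → ∃ M : (ι → ℤ) → ℝ,
      (∀ c, 0 ≤ M c) ∧ EB H M ≤ C * (1 + T) ∧
      ∀ (c : ι → ℤ) (α : ℕ → Fin b → ℂ) (ε τ : ℝ), IsFrobenius f b c α → 1 / Real.log H ≤ ε → ε ≤ 1 →
        |τ| ≤ T → (Real.log ‖LP α (m + 1 + ε + τ * Complex.I)‖ -
          (1 + e) * Real.log ‖riemannZeta (1 + ε + τ * Complex.I)‖) ^ 2 ≤ M c := by
  obtain ⟨C1, hC1, hZ1⟩ := count_all f p0 e C0 hZ
  have hzc : ∀ p : ℕ, p.Prime → zc f p ≤ (|e| + C1) * (p : ℝ) ^ m := by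
    intro p hp
    have h1 := hZ1 p hp
    have h2 := half_pow (m := m) hp
    have h3 : (0 : ℝ) ≤ (p : ℝ) ^ m := by positivity
    have h4 := (abs_le.mp h1).2
    have h5 : e * (p : ℝ) ^ m ≤ |e| * (p : ℝ) ^ m := by
      gcongr
      exact le_abs_self e
    have h6 : C1 * (p : ℝ) ^ ((m : ℝ) - 1 / 2) ≤ C1 * (p : ℝ) ^ m := by gcongr
    linarith
  obtain ⟨P, hP0, hP⟩ := exists_disc (n := 2 * m + 1) f hd hf c0 hs
  have hCZ : 0 ≤ |e| + C1 := by positivity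
  have hfam := fam (f := f) (p0 := p0) P c0 hP0 hCZ hsep hzc
  set A : ℝ := 4 + (1 + (|e| + C1)) ^ 2 + p0 + P.totalDegree + |(MvPolynomial.eval c0 P : ℝ)| with hA
  have hA1 := hfam.A0
  set β : ℝ := b + (|e| + C1) + 1 with hβ
  have hβ0 : 0 ≤ β := by positivity
  set K : ℝ := b * SS + 128 * b + C1 * SS + |1 + e| * (SS + 128) with hK
  have hSS := SS_nonneg
  have hK0 : 0 ≤ K := by positivity
  have hK1 : 0 ≤ K1 ι A := by
    unfold K1
    positivity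
  have hK4 : 0 ≤ K4 ι A β :=
    le_trans (by unfold EB; positivity) (hfam.EB_bb_sq hβ0 0 0 (by norm_num))
  refine ⟨3 * (11 * (4 * Real.pi * K1 ι A)) + 3 * K4 ι A β + 3 * K ^ 2 + 1, by positivity, ?_⟩
  intro H hH T hT
  obtain ⟨y, hy1, hy4, hyl⟩ := exists_y H hH
  have hlogH : 0 < Real.log H := Real.log_pos (by exact_mod_cast (by omega : 1 < H))
  set k : ℕ := ⌈4 * T + 1⌉₊ with hk
  have hk1 : 4 * T + 1 ≤ k := Nat.le_ceil _
  have hk2 : (k : ℝ) < 4 * T + 2 := by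
    have := Nat.ceil_lt_add_one (a := 4 * T + 1) (by positivity)
    linarith
  refine ⟨fun c => 3 * G2 (NN f p0) y k c +
    3 * (∑ p ∈ PR y, bb (NN f p0) (BB P p0) β p (red p c)) ^ 2 + 3 * K ^ 2, ?_, ?_, ?_⟩
  · intro c
    have := G2_nonneg (N := NN f p0) y k c
    positivity
  · rw [EB_add, EB_add, EB_const, Pool.Agent.Y722.HS.EB_mul, Pool.Agent.Y722.HS.EB_mul]
    have e1 := EB_G2 hfam H y k hy4
    have e2 := hfam.EB_bb_sq hβ0 H y hy4
    have hpi := Real.pi_pos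
    have e3 : (2 * (k : ℝ) + 1) * (4 * Real.pi * K1 ι A) ≤ (11 * (1 + T)) * (4 * Real.pi * K1 ι A) := by
      apply mul_le_mul_of_nonneg_right _ (by positivity)
      linarith
    have e4 : 3 * K4 ι A β ≤ 3 * K4 ι A β * (1 + T) := le_mul_of_one_le_right (by positivity) (by linarith)
    have e5 : 3 * K ^ 2 ≤ 3 * K ^ 2 * (1 + T) := le_mul_of_one_le_right (by positivity) (by linarith)
    nlinarith
  · intro c α ε τ hα hε0 hε1 hτ
    have hεp : 0 < ε := lt_of_lt_of_le (by positivity) hε0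
    have hyε : 1 ≤ 4 * (ε * Real.log (y + 1)) := by
      have h4 : 1 ≤ ε * Real.log H := by
        rw [div_le_iff₀ hlogH] at hε0
        exact hε0
      calc (1 : ℝ) ≤ ε * Real.log H := h4
        _ ≤ ε * (4 * Real.log (y + 1)) := by gcongr
        _ = _ := by ring
    have hs1 : ss (2 * m + 1) ε = (m : ℂ) + 1 + ε := by
      unfold ss
      push_cast
      ring
    have h1 := one_near2 (p0 := p0) P hP hC1 e hZ1 hzc b y hy1 c α hα ε τ hεp hε1 hyε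
    rw [← hβ, ← hK, hs1] at h1
    have h2 := ZC_le (N := NN f p0) y k c ε τ hεp.le hε1 (by linarith)
    set X := Real.log ‖LP α (m + 1 + ε + τ * Complex.I)‖ -
      (1 + e) * Real.log ‖riemannZeta (1 + ε + τ * Complex.I)‖
    set z := ‖ZC (NN f p0) y c (ε + τ * Complex.I)‖
    set w := ∑ p ∈ PR y, bb (NN f p0) (BB P p0) β p (red p c)
    have hK0 : 0 ≤ z + w + K := le_trans (abs_nonneg _) h1
    have h4 : X ^ 2 ≤ (z + w + K) ^ 2 := by
      rw [← sq_abs X]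
      gcongr
    have h5 : (z + w + K) ^ 2 ≤ 3 * z ^ 2 + 3 * w ^ 2 + 3 * K ^ 2 := by
      nlinarith [sq_nonneg (z - w), sq_nonneg (z - K), sq_nonneg (w - K)]
    simp only
    linarith

end

end Pool.Agent.N534.TL
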